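import Pool.Agent.Lib.MP_c7af3c_ag.T2C.IfaceB
import Pool.Agent.Lib.MP_c7af3c_ag.T2.H80.Norm3

/-!
# MP_c7af3c_ag, project T2C, row NORM3 (helper80): two lines through the point, every degree
-/

set_option autoImplicit false

namespace Pool.Agent.T2C.H80

open MvPolynomial Pool.Agent.Gen Pool.Agent.Sharp Pool.Agent.Edge
open Pool.Agent.T2 (mulS)
open Pool.Agent.T2.H80 (gf gf_X1 gf_X2 gf_li norm3d)

/-- Row NORM3: two lines through the point. -/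
theorem norm3 : NormeStatement (X 1 * X 2) := by
  intro K _ _ _ r f _ hf hc hz M hM
  have hq0 : MvPolynomial.map (Int.castRingHom K) (X 1 * X 2 : MvPolynomial (Fin 3) ℤ) =
      X 1 * X 2 := by
    rw [map_mul, map_X, map_X]
  rw [hq0] at hM hz ⊢
  obtain ⟨n₁, n₂, s₁, s₂, ν₁, ν₂, l1, l2, v1, v2, hmem⟩ :=
    norm3d hf hc (hz (X 1) (isHomogeneous_X K 1) (X_ne_zero 1) (dvd_mul_right _ _))
      (hz (X 2) (isHomogeneous_X K 2) (X_ne_zero 2) (dvd_mul_left _ _)) M hM.two hM.fy hM.fq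
      hM.ff
  refine ⟨gf s₁ s₂ ν₁ ν₂, X 0 ^ n₁ * X 1 ^ (r + 2 - n₁) + X 0 ^ n₂ * X 2 ^ (r + 2 - n₂),
    ![1, 0, 0], ν₁ * ν₂, 1, gf_li v1 v2, mul_ne_zero v1 v2, ?_, ?_, ?_⟩
  · rw [hq0, map_mul, gf_X1, gf_X2, C_mul]
    ring
  · rw [hq0]
    simpa using hmem
  · intro j
    rw [Fin.sum_univ_three]
    fin_cases j <;> simp [gf]

end Pool.Agent.T2C.H80
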