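import Pool.Agent.Lib.MP_c7af3c_ag.T2C.IfaceB
import Pool.Agent.Lib.MP_c7af3c_ag.T2.H80.Norm4

/-!
# MP_c7af3c_ag, project T2C, row NORM4 (helper80): the double line, every degree
-/

set_option autoImplicit false

namespace Pool.Agent.T2C.H80

open MvPolynomial Pool.Agent.Gen Pool.Agent.Sharp Pool.Agent.Edge
open Pool.Agent.T2 (mulS)
open Pool.Agent.T2.H80 (gf4 gf4_X2 gf4_li norm4d)

/-- Row NORM4: the double line. -/
theorem norm4 : NormeStatement (X 2 ^ 2) := by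
  intro K _ _ _ r f _ hf hc hz M hM
  have hq0 : MvPolynomial.map (Int.castRingHom K) (X 2 ^ 2 : MvPolynomial (Fin 3) ℤ) =
      X 2 ^ 2 := by
    rw [map_pow, map_X]
  rw [hq0] at hM hz ⊢
  obtain ⟨n, j, t, s, u, v, ν₁, ν₂, -, -, v1, v2, hmem⟩ :=
    norm4d (by omega) hf hc (hz (X 2) (isHomogeneous_X K 2) (X_ne_zero 2)
      (dvd_pow_self _ two_ne_zero)) M hM.two hM.fy hM.fq hM.ff
  refine ⟨gf4 s u v ν₁ ν₂,
    X 0 ^ n * X 1 ^ (r + 2 - n) + C t * (X 2 * (X 0 ^ j * X 1 ^ (r + 2 - 1 - j))),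
    ![1, 0, 0], ν₂ ^ 2, 1, gf4_li v1 v2, pow_ne_zero _ v2, ?_, ?_, ?_⟩
  · rw [hq0, map_pow, gf4_X2, C_pow]
    ring
  · rw [hq0]
    simpa using hmem
  · intro j
    rw [Fin.sum_univ_three]
    fin_cases j <;> simp [gf4]

end Pool.Agent.T2C.H80
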